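import Pool.Agent.Helper88.SY.WPR

set_option autoImplicit false

noncomputable section

open MeasureTheory Set Filter Topology

namespace Pool.Agent.Helper88.SY.HOM

open Helper37.SY

/-- the linear map `x ↦ (A x_i)` -/
def LL {n : ℕ} (A : Matrix (Fin n) (Fin n) ℝ) :
    (Fin (n + 1) → Fin n → ℝ) →ₗ[ℝ] (Fin (n + 1) → Fin n → ℝ) :=
  LinearMap.pi fun i => (Matrix.toLin' A).comp (LinearMap.proj i)

lemma LL_apply {n : ℕ} (A : Matrix (Fin n) (Fin n) ℝ) (x : Fin (n + 1) → Fin n → ℝ)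
    (i : Fin (n + 1)) : LL A x i = A.mulVec (x i) := by
  simp [LL]

lemma det_LL {n : ℕ} (A : Matrix (Fin n) (Fin n) ℝ) : LinearMap.det (LL A) = A.det ^ (n + 1) := by
  unfold LL
  rw [LinearMap.det_pi]
  simp

lemma cov0 {n : ℕ} (A : Matrix (Fin n) (Fin n) ℝ) (hA : A.det ≠ 0)
    (f : (Fin (n + 1) → Fin n → ℝ) → ℝ) :
    |A.det| ^ (n + 1) * ∫ y, f (LL A y) = ∫ x, f x := by
  have hdet : LinearMap.det (LL A) ≠ 0 := by
    rw [det_LL]; exact pow_ne_zero _ hA
  have hmap := Measure.map_linearMap_addHaar_eq_smul_addHaar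
    (volume : Measure (Fin (n + 1) → Fin n → ℝ)) hdet
  have hemb : MeasurableEmbedding (LL A) :=
    ((LL A).equivOfDetNeZero hdet).toContinuousLinearEquiv.toHomeomorph.measurableEmbedding
  have h2 : ∫ y, f (LL A y) = ∫ x, f x ∂(Measure.map (LL A) volume) :=
    (hemb.integral_map _).symm
  rw [h2, hmap, integral_smul_measure, ENNReal.toReal_ofReal (abs_nonneg _), smul_eq_mul,
    ← mul_assoc, det_LL, abs_inv, abs_pow, mul_inv_cancel₀ (pow_ne_zero _ (abs_ne_zero.2 hA)),
    one_mul]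

/-- change of variables -/
lemma cov {n : ℕ} (A : Matrix (Fin n) (Fin n) ℝ) (c : Fin n → ℝ) (hA : A.det ≠ 0)
    (f : (Fin (n + 1) → Fin n → ℝ) → ℝ) :
    |A.det| ^ (n + 1) * ∫ y : Fin (n + 1) → Fin n → ℝ, f (fun i => A.mulVec (y i) + c)
      = ∫ x, f x := by
  have h4 : ∫ x : Fin (n + 1) → Fin n → ℝ, f (x + fun _ => c) = ∫ x, f x :=
    integral_add_right_eq_self f _
  rw [← h4, ← cov0 A hA (fun x => f (x + fun _ => c))]
  congr 2

theorem main : S_HOM := by
  intro n q hq A c K hA hK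
  have hms : ∀ K : Set (Fin n → ℝ), MeasurableSet K →
      MeasurableSet {x : Fin (n + 1) → Fin n → ℝ | ∀ i, x i ∈ K} := by
    intro K hK
    have : {x : Fin (n + 1) → Fin n → ℝ | ∀ i, x i ∈ K} = ⋂ i, (fun x => x i) ⁻¹' K := by
      ext x; simp
    rw [this]
    exact MeasurableSet.iInter fun i => measurable_pi_apply i hK
  have hK' : MeasurableSet {x | A.mulVec x + c ∈ K} := by
    have hc : Continuous fun x : Fin n → ℝ => A.mulVec x + c := by fun_prop
    exact hc.measurable hK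
  unfold Gq
  rw [← integral_indicator (hms K hK), ← integral_indicator (hms _ hK'),
    ← cov A c hA ({x : Fin (n + 1) → Fin n → ℝ | ∀ i, x i ∈ K}.indicator (W q)),
    Real.rpow_add (abs_pos.2 hA)]
  have hd : |A.det| ^ ((n : ℝ) + 1) = |A.det| ^ (n + 1) := by
    rw [← Real.rpow_natCast]
    push_cast
    rfl
  rw [hd, mul_assoc]
  congr 1
  rw [← integral_const_mul]
  congr 1
  funext y
  by_cases h : ∀ i, A.mulVec (y i) + c ∈ K
  · rw [indicator_of_mem (by exact h), indicator_of_mem (by exact h), WPR.aff]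
  · rw [indicator_of_notMem (by exact h), indicator_of_notMem (by exact h), mul_zero]

end Pool.Agent.Helper88.SY.HOM

end
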