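import Pool.Agent.Helper37.SY.Spec

set_option autoImplicit false

noncomputable section

open MeasureTheory Set Filter Topology

namespace Pool.Agent.Helper88.SY.WPR

open Helper37.SY

variable {n : ℕ}

/-- the bordered matrix -/
def bm (x : Fin (n + 1) → Fin n → ℝ) : Matrix (Fin (n + 1)) (Fin (n + 1)) ℝ :=
  Matrix.of fun i => (Fin.cons 1 (x i) : Fin (n + 1) → ℝ)

lemma det_bm (x : Fin (n + 1) → Fin n → ℝ) :
    (bm x).det = (Matrix.of fun i j : Fin n => x i.succ j - x 0 j).det := by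
  obtain ⟨A, hA⟩ : ∃ A : Matrix (Fin (n + 1)) (Fin (n + 1)) ℝ,
      A = Matrix.of fun i j => bm x i j + (Fin.cons 0 (fun _ => -1) : Fin (n + 1) → ℝ) i * bm x 0 j :=
    ⟨_, rfl⟩
  have h1 : A.det = (bm x).det := by
    apply Matrix.det_eq_of_forall_row_eq_smul_add_const
      (Fin.cons 0 (fun _ => -1) : Fin (n + 1) → ℝ) 0 (by simp)
    intro i j
    rw [hA]
    rfl
  rw [← h1, Matrix.det_succ_column_zero, Fin.sum_univ_succ]
  have h2 : ∀ i : Fin n, A i.succ 0 = 0 := by
    intro i
    rw [hA]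
    simp [bm]
  have h3 : A 0 0 = 1 := by
    rw [hA]
    simp [bm]
  simp only [h2, h3]
  simp only [Fin.val_zero, pow_zero, one_mul, mul_zero, zero_mul, Finset.sum_const_zero, add_zero]
  congr 1
  ext i j
  rw [hA]
  simp [bm, Matrix.submatrix_apply]
  ring

lemma W_eq (q : ℝ) (x : Fin (n + 1) → Fin n → ℝ) : W q x = |(bm x).det| ^ q := by
  rw [det_bm]; rfl

lemma cont (q : ℝ) (hq : 1 ≤ q) : Continuous (W q : (Fin (n + 1) → Fin n → ℝ) → ℝ) := by
  unfold W
  apply Continuous.rpow_const _ fun _ => Or.inr (by linarith)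
  apply Continuous.abs
  apply Continuous.matrix_det
  apply continuous_matrix
  intro i j
  simp only [Matrix.of_apply]
  fun_prop

lemma perm (q : ℝ) (σ : Equiv.Perm (Fin (n + 1))) (x : Fin (n + 1) → Fin n → ℝ) :
    W q (fun i => x (σ i)) = W q x := by
  rw [W_eq, W_eq]
  have h : bm (fun i => x (σ i)) = (bm x).submatrix σ id := by
    ext i j
    rfl
  rw [h, Matrix.det_permute, abs_mul]
  have h2 : |((Equiv.Perm.sign σ : ℤ) : ℝ)| = 1 := by
    rcases Int.units_eq_one_or (Equiv.Perm.sign σ) with h | h <;> rw [h] <;> simp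
  rw [h2, one_mul]

lemma aff (q : ℝ) (A : Matrix (Fin n) (Fin n) ℝ) (c : Fin n → ℝ) (x : Fin (n + 1) → Fin n → ℝ) :
    W q (fun i => A.mulVec (x i) + c) = |A.det| ^ q * W q x := by
  unfold W
  have h : (Matrix.of fun i j : Fin n =>
      (A.mulVec (x i.succ) + c) j - (A.mulVec (x 0) + c) j)
      = (Matrix.of fun i j : Fin n => x i.succ j - x 0 j) * A.transpose := by
    ext i j
    simp only [Matrix.of_apply, Pi.add_apply, Matrix.mul_apply, Matrix.transpose_apply,
      Matrix.mulVec, dotProduct]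
    rw [add_sub_add_right_eq_sub, ← Finset.sum_sub_distrib]
    apply Finset.sum_congr rfl
    intro k _
    ring
  rw [h, Matrix.det_mul, Matrix.det_transpose, abs_mul, Real.mul_rpow (abs_nonneg _) (abs_nonneg _),
    mul_comm]

lemma conv (q : ℝ) (hq : 1 ≤ q) (y : Fin n → Fin n → ℝ) :
    ConvexOn ℝ univ (fun x : Fin n → ℝ => W q (Fin.cons x y)) := by
  obtain ⟨D, hD⟩ : ∃ D : (Fin n → ℝ) → ℝ,
      ∀ x, D x = (bm (Fin.cons x y : Fin (n + 1) → Fin n → ℝ)).det := ⟨_, fun _ => rfl⟩
  have hlin : ∀ (x z : Fin n → ℝ) (a b : ℝ), a + b = 1 → D (a • x + b • z) = a * D x + b * D z := by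
    intro x z a b hab
    simp only [hD]
    rw [Matrix.det_succ_row_zero, Matrix.det_succ_row_zero, Matrix.det_succ_row_zero,
      Finset.mul_sum, Finset.mul_sum, ← Finset.sum_add_distrib]
    apply Finset.sum_congr rfl
    intro j _
    have hsub : ∀ v : Fin n → ℝ,
        (bm (Fin.cons v y : Fin (n + 1) → Fin n → ℝ)).submatrix Fin.succ j.succAbove
          = (Matrix.of fun i => (Fin.cons 1 (y i) : Fin (n + 1) → ℝ)).submatrix id j.succAbove := by
      intro v
      ext i k
      simp [bm]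
    rw [hsub, hsub, hsub]
    have h0 : bm (Fin.cons (a • x + b • z) y : Fin (n + 1) → Fin n → ℝ) 0 j
        = a * bm (Fin.cons x y : Fin (n + 1) → Fin n → ℝ) 0 j
          + b * bm (Fin.cons z y : Fin (n + 1) → Fin n → ℝ) 0 j := by
      unfold bm
      simp only [Matrix.of_apply, Fin.cons_zero]
      refine Fin.cases ?_ (fun k => ?_) j
      · simp [hab]
      · simp
    rw [h0]
    ring
  refine ⟨convex_univ, fun x _ z _ a b ha hb hab => ?_⟩
  simp only [W_eq, ← hD]
  rw [hlin x z a b hab]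
  have h1 : |a * D x + b * D z| ≤ a * |D x| + b * |D z| := by
    refine (abs_add_le _ _).trans ?_
    rw [abs_mul, abs_mul, abs_of_nonneg ha, abs_of_nonneg hb]
  refine (Real.rpow_le_rpow (abs_nonneg _) h1 (by linarith)).trans ?_
  have h2 := (convexOn_rpow hq).2 (abs_nonneg (D x)) (abs_nonneg (D z)) ha hb hab
  simpa [smul_eq_mul] using h2

theorem main : S_WPR := fun _ q hq =>
  ⟨cont q hq, fun σ x => perm q σ x, fun A c x => aff q A c x, fun y => conv q hq y⟩

end Pool.Agent.Helper88.SY.WPR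

end
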